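import Pool.Agent.H8.JS.Targets

/-!
# Nondeterministic Turing machines and spectra: from the relations to a computation
-/

set_option autoImplicit false

namespace Pool.Agent.H1.JS

open Pool.Agent.H69.Sp Pool.Agent.H69.Mt Pool.Agent.H16.TO Pool.Agent.H8.PL Pool.Agent.H8.JS

theorem pf_ed (hET : J_ET) (hHB : J_HB) : J_ED := by
  intro M eq es x U l E heq hes hqU haU
  induction l with
  | zero =>
    intro _ hR _
    refine ⟨fun _ => init M x, ⟨rfl, fun i hi => absurd hi (by omega)⟩, ?_⟩
    intro t ht
    have : t = 0 := by omega
    subst this
    exact hR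
  | succ l ih =>
    intro hl hR hS
    obtain ⟨c, hc, hrep⟩ := ih (by omega) hR (fun t ht htl => hS t ht (by omega))
    obtain ⟨t', _, rfl, hT⟩ := hS l (by omega) (by omega)
    have hhd := hHB M x l c hc l le_rfl
    obtain ⟨c', hstep, hrep'⟩ := (hET M eq es U E l (c l) heq hes hqU haU hl hhd
      (hrep l le_rfl)).1 hT
    refine ⟨fun i => if i ≤ l then c i else c', ⟨?_, ?_⟩, ?_⟩
    · simpa using hc.1
    · intro i hi
      by_cases h : i < l
      · have h1 : i ≤ l := by omega
        have h2 : i + 1 ≤ l := by omega
        simp only [h1, h2, if_true]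
        exact hc.2 i h
      · have h1 : i = l := by omega
        subst h1
        have h2 : ¬ i + 1 ≤ i := by omega
        simp only [le_refl, h2, if_true, if_false]
        exact hstep
    · intro t ht
      by_cases h : t ≤ l
      · simp only [h, if_true]
        exact hrep t h
      · have h1 : t = l + 1 := by omega
        subst h1
        simp only [h, if_false]
        exact hrep'

end Pool.Agent.H1.JS
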