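import Pool.Agent.H8.JS.Targets

/-!
# Nondeterministic Turing machines and spectra: the empty word
-/

set_option autoImplicit false

namespace Pool.Agent.H1.JS

open Pool.Agent.H69.Sp Pool.Agent.H69.Mt Pool.Agent.H16.TO Pool.Agent.H8.PL Pool.Agent.H8.JS

private theorem init_tp (M : CW) (e : Prop) (j : Fin ((tm M e).k + 1)) (p : ℕ) :
    (init (tm M e) []).tp j p = .bl := by
  unfold init
  simp

private theorem first (M : CW) (e : Prop) (c : Cfg (tm M e))
    (h : Step (tm M e) (init (tm M e) []) c) : e ∧ c.q = some M.acc := by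
  obtain ⟨a', d, h1, -, -⟩ := h
  have h2 : ((init (tm M e) []).tp 0 ((init (tm M e) []).hd 0) = .bl ∧ e ∧ c.q = some M.acc ∧
      a' = (fun j => (init (tm M e) []).tp j ((init (tm M e) []).hd j)) ∧ d = fun _ => .S) ∨
      ((init (tm M e) []).tp 0 ((init (tm M e) []).hd 0) ≠ .bl ∧ c.q = some M.start ∧
        (d = fun _ => .S) ∧
          a' = Fin.cons ((init (tm M e) []).tp 0 ((init (tm M e) []).hd 0))
            (Fin.snoc (fun _ : Fin M.k => (csy M true : Sym (Option M.A)))
            ((init (tm M e) []).tp (Fin.last _) ((init (tm M e) []).hd (Fin.last _))))) := h1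
  rcases h2 with h2 | h2
  · exact ⟨h2.2.1, h2.2.2.1⟩
  · exact absurd (init_tp M e 0 _) h2.1

private theorem nostep (M : CW) (e : Prop) (c c' : Cfg (tm M e)) (hc : c.q = some M.acc)
    (h : Step (tm M e) c c') : False := by
  obtain ⟨a', d, h1, -, -⟩ := h
  rw [hc] at h1
  obtain ⟨q₁, i, z, w, adv, dn, w', m, h2, -⟩ := h1
  exact M.noacc _ _ _ _ _ _ _ _ h2

theorem pf_t3 : J_T3 := by
  intro M e
  refine ⟨⟨?_, ?_⟩, ?_⟩
  · rintro ⟨l, c, ⟨h0, h1⟩, h2⟩
    cases l with
    | zero =>
      rw [h0] at h2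
      have h3 : (none : Option M.Q) = some M.acc := h2
      exact absurd h3 (by simp)
    | succ l =>
      have h3 := h1 0 (by omega)
      rw [h0] at h3
      exact (first M e _ h3).1
  · intro he
    refine ⟨1, fun i => if i = 0 then init (tm M e) [] else
      ⟨some M.acc, fun _ => 0, fun _ _ => .bl⟩, ⟨rfl, ?_⟩, rfl⟩
    intro i hi
    have : i = 0 := by omega
    subst this
    refine ⟨fun j => (init (tm M e) []).tp j 0, fun _ => .S, ?_, ?_, ?_⟩
    · exact Or.inl ⟨init_tp M e 0 _, he, rfl, rfl, rfl⟩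
    · intro j
      rfl
    · intro j p
      have h1 := init_tp M e j 0
      have h2 := init_tp M e j p
      simp only [if_true, h1, h2, ite_self]
      rfl
  · intro l c ⟨h0, h1⟩
    by_contra hl
    have h2 := h1 0 (by omega)
    have h3 := h1 1 (by omega)
    rw [h0] at h2
    exact nostep M e _ _ (first M e _ h2).2 h3

end Pool.Agent.H1.JS
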